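import Pool.Agent.Q64.EJ.Lma
import Pool.Agent.Q64.EJ.Mai
import Pool.Agent.Q64.EJ.Ind
import Pool.Agent.Q64.EJ.Hom
import Pool.Agent.Q64.EJ.Tha
import Pool.Agent.Q64.EJ.Thb
import Pool.Agent.Q64.EJ.Thc
import Pool.Agent.Q64.EJ.Frm2
import Pool.Agent.Q64.EJ.Ina
import Pool.Agent.Q64.EJ.Ktr2
import Pool.Agent.Q64.EJ.Noe
import Pool.Agent.Q64.EJ.Lm2
import Pool.Agent.Q64.EJ.Pbw
import Pool.Agent.Q64.EJ.Lm1
import Pool.Agent.Q64.EJ.Kos
import Pool.Agent.Q64.EJ.Aut
import Pool.Agent.Q64.EJ.Var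
import Pool.Agent.Q64.EJ.Eva
import Pool.Agent.Q64.EJ.Rel
import Pool.Agent.Q64.EJ.Sur
import Pool.Agent.Q64.EJ.Inb
import Pool.Agent.Q64.EJ.Onv

/-!
MP_2f98db_ag: for generic `u` the natural map from the matroid hypergeometric system `M_L(u)` to
the twisted cohomology `M_L^hyp(u) = H^d(Ω^•_(X/Z), ∇_ω)` is an isomorphism of modules over the
Weyl algebra (the answer to Q1 is yes).

The definitions are in `Pool.Agent.Q64.EJ.Bas` and `Pool.Agent.Q64.EJ.Frm`:
`DZ (n + 1)` the Weyl algebra `D_Z`, `HL A u` the left ideal `H_L(u)`, `ML A u` the module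
`M_L(u) = D_Z / H_L(u)`, `gen A u` the class of `1`; rational functions in `t` and `z` are the
elements of the fraction field of the polynomial ring, `RR A` are those with poles only along
`f = 0` and `ℓ_0 ⋯ ℓ_n = 0`, `TDeg q` those homogeneous of degree `q` in `t`; `Om A u` are the
differential forms with the action `act` of `D_Z`, `forms A u q` the module `Ω^q`, `nab A u` the
differential `∇_ω`, `clo A u` and `exa A u` the closed and the exact `d`-forms, `Mhyp A u` the
module `M_L^hyp(u)` with the classes `cls`, and `fOm A u` the form `f^(d+1) Ω(t)`.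
-/

set_option autoImplicit false

open MvPolynomial Pool.Agent.Q64.EJ

namespace Pool.Agent.Results.MP_2f98db_ag.EulerIntegrals

/-- Let `A` be a complex `(d+1) × (n+1)` matrix of rank `d + 1` without zero column. Outside
countably many hypersurfaces of the space of the parameters `u` there is an isomorphism
`ψ : M_L(u) → M_L^hyp(u)` of modules over the Weyl algebra which maps the class of `1` to the class
of the (closed) form `f^(d+1) Ω(t)`. -/
theorem result {d n : ℕ} (A : Matrix (Fin (d + 1)) (Fin (n + 1)) ℂ) (hrank : A.rank = d + 1)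
    (hcol : ∀ j, ∃ i, A i j ≠ 0) :
    ∃ S : Set (MvPolynomial (Fin (n + 1)) ℂ), S.Countable ∧
      (0 : MvPolynomial (Fin (n + 1)) ℂ) ∉ S ∧
      ∀ u : Fin (n + 1) → ℂ, (∀ p ∈ S, eval u p ≠ 0) →
        ∃ (ψ : ML A u ≃ₗ[DZ (n + 1)] Mhyp A u) (h : fOm A u ∈ clo A u),
          ψ (gen A u) = cls A u ⟨fOm A u, h⟩ := by
  have hpbw : S_pbw := Pool.Agent.Q64.EJ.H280.pbw
  have hlma : S_lma := lma (Pool.Agent.Q64.EJ.H280.Lm1.lm1 hpbw) (Pool.Agent.Q64.EJ.H81.Lm2.lm2 hpbw)
  have heva : S_eva := Pool.Agent.Q64.EJ.H224.eva hpbw Pool.Agent.Q64.EJ.H224.var ind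
  have hrel : S_rel := Pool.Agent.Q64.EJ.H224.rel heva
  have hsur : S_sur := Pool.Agent.Q64.EJ.H224.sur hlma heva hrel
  have hina : S_ina := ina Pool.Agent.Q64.EJ.H81.Noe.noe heva hrel hsur
  have honv : S_onv := Pool.Agent.Q64.EJ.H224.onv hsur hina Pool.Agent.Q64.EJ.H224.inb
  exact main Pool.Agent.Q64.EJ.H121.aut heva hrel honv (ktr Pool.Agent.Q64.EJ.H280.Kos.kos) (tha ind)
    (thb grd) (thc ind grd) hom frm A hrank hcol

end Pool.Agent.Results.MP_2f98db_ag.EulerIntegrals
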